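import Mathlib
import Pool.Agent.Helper113_rotor.Geom

namespace Pool.Agent.Results.MP_c2e62a_gt.RotorIffBall

/-- Euclidean three-space. -/
abbrev E3 := EuclideanSpace ℝ (Fin 3)

/-- The vertical unit vector. -/
noncomputable def ez : E3 := !₂[0, 0, 1]

/-- The vertical cylinder over a set `S`: all points `y + h ez` with `y ∈ S`, `h` real. -/
def cylinder (S : Set E3) : Set E3 := {x | ∃ y ∈ S, ∃ h : ℝ, x = y + h • ez}

/-- The infinite prism over the triangle with vertices `A B C`. -/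
def prism (A B C : E3) : Set E3 := cylinder (convexHull ℝ {A, B, C})

/-- The face of the prism over the edge with endpoints `P Q`. -/
def face (P Q : E3) : Set E3 := cylinder (segment ℝ P Q)

/-- A linear isometry is a rotation (an element of `SO(3)`) if its determinant is one. -/
def IsRotation (ρ : E3 ≃ₗᵢ[ℝ] E3) : Prop := LinearMap.det (ρ.toLinearEquiv : E3 →ₗ[ℝ] E3) = 1

/-- The moved copy `ρ K + t` of `K`. -/
def moved (ρ : E3 ≃ₗᵢ[ℝ] E3) (t : E3) (K : Set E3) : Set E3 := {y | ∃ x ∈ K, y = ρ x + t}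

/-- `L` lies in the prism over `A B C` and meets each of its three faces. -/
def Inscribed (A B C : E3) (L : Set E3) : Prop :=
  L ⊆ prism A B C ∧ (L ∩ face B C).Nonempty ∧ (L ∩ face C A).Nonempty ∧ (L ∩ face A B).Nonempty

/-- `K` is a rotor in the prism over the triangle `A B C`: for every rotation `ρ` some translate
of `ρ K` lies in the prism and meets each of the three faces. -/
def IsRotor (A B C : E3) (K : Set E3) : Prop :=
  ∀ ρ : E3 ≃ₗᵢ[ℝ] E3, IsRotation ρ → ∃ t : E3, Inscribed A B C (moved ρ t K)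

/-- `A B C` are the vertices of an equilateral triangle in the plane `z = 0`. -/
def IsTriangle (A B C : E3) : Prop :=
  A 2 = 0 ∧ B 2 = 0 ∧ C 2 = 0 ∧ A ≠ B ∧ dist A B = dist B C ∧ dist B C = dist C A

/-- Compact convex sets with nonempty interior. -/
def IsConvexBody (K : Set E3) : Prop := IsCompact K ∧ Convex ℝ K ∧ (interior K).Nonempty

open Pool.Agent.Helper113_rotor

/-- Data of an equilateral triangle: vectors from the centroid. -/
theorem tri_data (A B C : E3) (hA : A 2 = 0) (hB : B 2 = 0) (hC : C 2 = 0) (hne : A ≠ B)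
    (h1 : dist A B = dist B C) (h2 : dist B C = dist C A) :
    ∃ (G a b c : E3) (s : ℝ), 0 < s ∧ A = G + a ∧ B = G + b ∧ C = G + c ∧ a + b + c = 0 ∧
      ‖a‖ = s ∧ ‖b‖ = s ∧ ‖c‖ = s ∧ inner ℝ a b = -s ^ 2 / 2 ∧ inner ℝ b c = -s ^ 2 / 2 ∧
      inner ℝ c a = -s ^ 2 / 2 ∧ a 2 = 0 ∧ b 2 = 0 ∧ c 2 = 0 ∧ G 2 = 0 ∧
      dist A B = √3 * s := by
  set G : E3 := (1 / 3 : ℝ) • (A + B + C) with hG
  set a : E3 := A - G with ha
  set b : E3 := B - G with hb
  set c : E3 := C - G with hc
  have hsum : a + b + c = 0 := by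
    rw [ha, hb, hc, hG]; module
  have hcc : c = -a - b := by
    have : c = (a + b + c) - a - b := by abel
    rw [this, hsum, zero_sub]
  have dAB : dist A B = ‖a - b‖ := by rw [dist_eq_norm, ha, hb]; congr 1; abel
  have dBC : dist B C = ‖b - c‖ := by rw [dist_eq_norm, hb, hc]; congr 1; abel
  have dCA : dist C A = ‖c - a‖ := by rw [dist_eq_norm, hc, ha]; congr 1; abel
  have e1 : ‖a - b‖ ^ 2 = ‖a‖ ^ 2 - 2 * inner ℝ a b + ‖b‖ ^ 2 := norm_sub_sq_real a b
  have e2 : ‖b - c‖ ^ 2 = ‖a‖ ^ 2 + 4 * inner ℝ a b + 4 * ‖b‖ ^ 2 := by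
    have : b - c = a + (2 : ℝ) • b := by rw [hcc]; module
    rw [this, norm_add_sq_real, norm_smul, inner_smul_right]
    norm_num
    ring
  have e3 : ‖c - a‖ ^ 2 = 4 * ‖a‖ ^ 2 + 4 * inner ℝ a b + ‖b‖ ^ 2 := by
    have : c - a = -((2 : ℝ) • a + b) := by rw [hcc]; module
    rw [this, norm_neg, norm_add_sq_real, norm_smul, inner_smul_left]
    norm_num
    ring
  have f1 : ‖a - b‖ ^ 2 = ‖b - c‖ ^ 2 := by rw [← dAB, ← dBC, h1]
  have f2 : ‖b - c‖ ^ 2 = ‖c - a‖ ^ 2 := by rw [← dBC, ← dCA, h2]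
  have g1 : ‖a‖ ^ 2 = ‖b‖ ^ 2 := by nlinarith
  have g2 : inner ℝ a b = -‖a‖ ^ 2 / 2 := by nlinarith
  have g3 : ‖b‖ = ‖a‖ := by
    rw [← abs_of_nonneg (norm_nonneg b), ← abs_of_nonneg (norm_nonneg a)]
    exact (sq_eq_sq_iff_abs_eq_abs _ _).mp g1.symm
  have g4 : ‖c‖ ^ 2 = ‖a‖ ^ 2 := by
    have : c = -(a + b) := by rw [hcc]; abel
    rw [this, norm_neg, norm_add_sq_real, g2, ← g1]; ring
  have g5 : ‖c‖ = ‖a‖ := by
    rw [← abs_of_nonneg (norm_nonneg c), ← abs_of_nonneg (norm_nonneg a)]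
    exact (sq_eq_sq_iff_abs_eq_abs _ _).mp g4
  have g6 : ‖a - b‖ ^ 2 = 3 * ‖a‖ ^ 2 := by rw [e1, g2, ← g1]; ring
  have g7 : ‖a - b‖ = √3 * ‖a‖ := by
    rw [← abs_of_nonneg (norm_nonneg (a - b)),
      ← abs_of_nonneg (by positivity : (0 : ℝ) ≤ √3 * ‖a‖)]
    apply (sq_eq_sq_iff_abs_eq_abs _ _).mp
    rw [g6, mul_pow, Real.sq_sqrt (by norm_num)]
  have hpos : 0 < ‖a‖ := by
    rcases lt_or_eq_of_le (norm_nonneg a) with h | h
    · exact h
    · exfalso
      apply hne
      rw [← dist_eq_zero, dAB, g7, ← h, mul_zero]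
  have a2 : G 2 = 0 := by rw [hG]; simp [hA, hB, hC]
  refine ⟨G, a, b, c, ‖a‖, hpos, ?_, ?_, ?_, hsum, rfl, g3, g5, g2, ?_, ?_, ?_, ?_, ?_, a2, ?_⟩
  · rw [ha]; abel
  · rw [hb]; abel
  · rw [hc]; abel
  · rw [hcc, inner_sub_right, inner_neg_right, real_inner_comm a b, g2,
      real_inner_self_eq_norm_sq, g3]; ring
  · rw [hcc, inner_sub_left, inner_neg_left, real_inner_comm a b, g2,
      real_inner_self_eq_norm_sq]; ring
  · rw [ha]; simp [hA, a2]
  · rw [hb]; simp [hB, a2]
  · rw [hc]; simp [hC, a2]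
  · rw [dAB, g7]

theorem inner_ez (x : E3) (h : x 2 = 0) : inner ℝ ez x = 0 := by
  rw [PiLp.inner_apply, Fin.sum_univ_three]
  simp [ez, h]

/-- Points of the prism satisfy the face inequality. -/
theorem prism_ineq (G a b c : E3) (s : ℝ) (na : ‖a‖ = s)
    (hab : inner ℝ a b = -s ^ 2 / 2) (hca : inner ℝ c a = -s ^ 2 / 2) (ha2 : a 2 = 0)
    (x : E3) (hx : x ∈ cylinder (convexHull ℝ {G + a, G + b, G + c})) :
    inner ℝ (x - G) (-a) ≤ s ^ 2 / 2 := by
  obtain ⟨y, hy, h, rfl⟩ := hx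
  have hsub : (convexHull ℝ {G + a, G + b, G + c}) ⊆ {y : E3 | inner ℝ (y - G) (-a) ≤ s ^ 2 / 2} := by
    apply convexHull_min
    · intro z hz
      simp only [Set.mem_insert_iff, Set.mem_singleton_iff] at hz
      rcases hz with rfl | rfl | rfl
      · simp only [Set.mem_ofPred_eq, add_sub_cancel_left, inner_neg_right,
          real_inner_self_eq_norm_sq, na]
        nlinarith [sq_nonneg s]
      · simp only [Set.mem_ofPred_eq, add_sub_cancel_left, inner_neg_right]
        rw [real_inner_comm, hab]; linarith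
      · simp only [Set.mem_ofPred_eq, add_sub_cancel_left, inner_neg_right]
        rw [hca]; linarith
    · intro y1 h1 y2 h2 p q hp hq hpq
      simp only [Set.mem_ofPred_eq] at h1 h2 ⊢
      have : p • y1 + q • y2 - G = p • (y1 - G) + q • (y2 - G) := by
        have : G = (p + q) • G := by rw [hpq, one_smul]
        nth_rewrite 1 [this]
        module
      rw [this, inner_add_left, real_inner_smul_left, real_inner_smul_left]
      nlinarith
  have h1 := hsub hy
  simp only [Set.mem_ofPred_eq] at h1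
  have h2 : y + h • ez - G = (y - G) + h • ez := by abel
  rw [h2, inner_add_left, real_inner_smul_left, inner_neg_right ez a, inner_ez a ha2]
  simpa using h1

/-- Points of a face satisfy the face equality. -/
theorem face_eq (G a b c : E3) (s : ℝ)
    (hab : inner ℝ a b = -s ^ 2 / 2) (hca : inner ℝ c a = -s ^ 2 / 2) (ha2 : a 2 = 0)
    (x : E3) (hx : x ∈ cylinder (segment ℝ (G + b) (G + c))) :
    inner ℝ (x - G) (-a) = s ^ 2 / 2 := by
  obtain ⟨y, hy, h, rfl⟩ := hx
  obtain ⟨p, q, hp, hq, hpq, rfl⟩ := hy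
  have : p • (G + b) + q • (G + c) + h • ez - G = p • b + q • c + h • ez := by
    have : G = (p + q) • G := by rw [hpq, one_smul]
    nth_rewrite 3 [this]
    module
  rw [this, inner_add_left, inner_add_left, real_inner_smul_left, real_inner_smul_left,
    real_inner_smul_left, inner_neg_right, inner_neg_right, inner_neg_right, inner_ez a ha2,
    real_inner_comm a b, hab, hca]
  have hq' : q = 1 - p := by linarith
  rw [hq']; ring

/-- From one orientation: value of the support function in one direction. -/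
theorem supp_face (G a b c : E3) (s : ℝ) (na : ‖a‖ = s)
    (hab : inner ℝ a b = -s ^ 2 / 2) (hca : inner ℝ c a = -s ^ 2 / 2) (ha2 : a 2 = 0)
    (K : Set E3) (ρ : E3 ≃ₗᵢ[ℝ] E3) (t u : E3) (hu : ρ u = -a)
    (h1 : ∀ x ∈ K, ρ x + t ∈ cylinder (convexHull ℝ {G + a, G + b, G + c}))
    (h2 : ∃ x ∈ K, ρ x + t ∈ cylinder (segment ℝ (G + b) (G + c))) :
    supp K u = s ^ 2 / 2 + inner ℝ (t - G) a := by
  have key : ∀ x : E3, inner ℝ x u = inner ℝ (ρ x + t - G) (-a) + inner ℝ (t - G) a := by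
    intro x
    have : ρ x + t - G = ρ x + (t - G) := by abel
    rw [this, inner_add_left, ← hu, LinearIsometryEquiv.inner_map_map, hu, inner_neg_right]
    ring
  apply supp_eq
  · intro x hx
    rw [key x]
    have := prism_ineq G a b c s na hab hca ha2 _ (h1 x hx)
    linarith
  · obtain ⟨x, hx, hxf⟩ := h2
    refine ⟨x, hx, ?_⟩
    rw [key x, face_eq G a b c s hab hca ha2 _ hxf]

/-- The forward direction. -/
theorem rotor_is_ball (G a b c : E3) (s : ℝ) (hs : 0 < s) (hsum : a + b + c = 0)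
    (na : ‖a‖ = s) (nb : ‖b‖ = s) (nc : ‖c‖ = s)
    (hab : inner ℝ a b = -s ^ 2 / 2) (hbc : inner ℝ b c = -s ^ 2 / 2)
    (hca : inner ℝ c a = -s ^ 2 / 2) (ha2 : a 2 = 0) (hb2 : b 2 = 0) (hc2 : c 2 = 0)
    (K : Set E3) (hK : IsCompact K) (hconv : Convex ℝ K) (hne : K.Nonempty)
    (hrot : IsRotor (G + a) (G + b) (G + c) K) : ∃ z : E3, K = Metric.closedBall z (s / 2) := by
  have hs' : s ≠ 0 := hs.ne'
  have sets1 : ({G + b, G + c, G + a} : Set E3) = {G + a, G + b, G + c} := by
    ext x; simp only [Set.mem_insert_iff, Set.mem_singleton_iff]; tauto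
  have sets2 : ({G + c, G + a, G + b} : Set E3) = {G + a, G + b, G + c} := by
    ext x; simp only [Set.mem_insert_iff, Set.mem_singleton_iff]; tauto
  have main : ∀ x y z : E3, ‖x‖ = 1 → ‖y‖ = 1 → ‖z‖ = 1 → x + y + z = 0 →
      supp K x + supp K y + supp K z = 3 * (s / 2) := by
    intro x y z hx hy hz hxyz
    have hxy : inner ℝ x y = -1 / 2 := by
      have h1 : z = -(x + y) := by
        have : z = (x + y + z) - (x + y) := by abel
        rw [this, hxyz, zero_sub]
      have h2 : ‖z‖ ^ 2 = ‖x‖ ^ 2 + 2 * inner ℝ x y + ‖y‖ ^ 2 := by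
        rw [h1, norm_neg, norm_add_sq_real]
      rw [hx, hy, hz] at h2
      linarith
    obtain ⟨ρ, hdet, h1, h2⟩ := exists_rotation x y (s⁻¹ • (-a)) (s⁻¹ • (-b)) hx hy hxy
      (by rw [norm_smul, norm_neg, na, Real.norm_of_nonneg (by positivity), inv_mul_cancel₀ hs'])
      (by rw [norm_smul, norm_neg, nb, Real.norm_of_nonneg (by positivity), inv_mul_cancel₀ hs'])
      (by
        rw [inner_smul_left, inner_smul_right, inner_neg_neg, hab]
        simp only [conj_trivial]
        field_simp)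
    obtain ⟨t, ht0, fa0, fb0, fc0⟩ := hrot ρ hdet
    have ht : ∀ x ∈ K, ρ x + t ∈ cylinder (convexHull ℝ {G + a, G + b, G + c}) :=
      fun x hx => ht0 ⟨x, hx, rfl⟩
    have fa : ∃ x ∈ K, ρ x + t ∈ cylinder (segment ℝ (G + b) (G + c)) := by
      obtain ⟨_, ⟨x, hx, rfl⟩, hf⟩ := fa0
      exact ⟨x, hx, hf⟩
    have fb : ∃ x ∈ K, ρ x + t ∈ cylinder (segment ℝ (G + c) (G + a)) := by
      obtain ⟨_, ⟨x, hx, rfl⟩, hf⟩ := fb0
      exact ⟨x, hx, hf⟩
    have fc : ∃ x ∈ K, ρ x + t ∈ cylinder (segment ℝ (G + a) (G + b)) := by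
      obtain ⟨_, ⟨x, hx, rfl⟩, hf⟩ := fc0
      exact ⟨x, hx, hf⟩
    have hx' : ρ (s • x) = -a := by
      rw [map_smul, h1, smul_smul, mul_inv_cancel₀ hs', one_smul]
    have hy' : ρ (s • y) = -b := by
      rw [map_smul, h2, smul_smul, mul_inv_cancel₀ hs', one_smul]
    have hz' : ρ (s • z) = -c := by
      have h3 : s • z = -(s • x) - s • y := by
        have : s • z = s • (x + y + z) - s • x - s • y := by module
        rw [this, hxyz, smul_zero]; abel
      rw [h3, map_sub, map_neg, hx', hy']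
      have : c = (a + b + c) - a - b := by abel
      rw [this, hsum]; abel
    have s1 := supp_face G a b c s na hab hca ha2 K ρ t _ hx' ht fa
    have s2 := supp_face G b c a s nb hbc hab hb2 K ρ t _ hy'
      (by rw [sets1]; exact ht) fb
    have s3 := supp_face G c a b s nc hca hbc hc2 K ρ t _ hz'
      (by rw [sets2]; exact ht) fc
    rw [supp_hom K hK hne s _ hs.le] at s1 s2 s3
    have h4 : inner ℝ (t - G) a + inner ℝ (t - G) b + inner ℝ (t - G) c = 0 := by
      rw [← inner_add_right, ← inner_add_right, hsum, inner_zero_right]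
    have h5 : s * (supp K x + supp K y + supp K z) = s * (3 * (s / 2)) := by
      nlinarith
    exact mul_left_cancel₀ hs' h5
  have hbal : Bal (fun v => supp K v - s / 2 * ‖v‖) := by
    refine ⟨?_, ?_, ?_⟩
    · exact (supp_continuous K hK).sub (continuous_const.mul continuous_norm)
    · intro k v hk
      rw [supp_hom K hK hne k v hk, norm_smul, Real.norm_of_nonneg hk]
      ring
    · intro x y z hx hy hz hxyz
      have := main x y z hx hy hz hxyz
      simp only [hx, hy, hz]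
      linarith
  obtain ⟨z, hz⟩ := linear_of_bal _ hbal
  refine ⟨z, eq_ball_of_supp K hK hconv hne z (s / 2) (by positivity) ?_⟩
  intro v
  have := hz v
  linarith

/-- A point whose barycentric coordinates are nonnegative is in the prism. -/
theorem mem_prism (G a b c : E3) (s : ℝ) (hs : 0 < s) (hsum : a + b + c = 0)
    (na : ‖a‖ = s) (nb : ‖b‖ = s) (nc : ‖c‖ = s)
    (hab : inner ℝ a b = -s ^ 2 / 2) (hbc : inner ℝ b c = -s ^ 2 / 2)
    (hca : inner ℝ c a = -s ^ 2 / 2) (ha2 : a 2 = 0) (hb2 : b 2 = 0) (hc2 : c 2 = 0)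
    (x : E3) (hxa : -(s ^ 2 / 2) ≤ inner ℝ (x - G) a) (hxb : -(s ^ 2 / 2) ≤ inner ℝ (x - G) b)
    (hxc : -(s ^ 2 / 2) ≤ inner ℝ (x - G) c) :
    x ∈ cylinder (convexHull ℝ {G + a, G + b, G + c}) := by
  have hs2 : 0 < s ^ 2 := by positivity
  have hsumI : inner ℝ (x - G) a + inner ℝ (x - G) b + inner ℝ (x - G) c = 0 := by
    rw [← inner_add_right, ← inner_add_right, hsum, inner_zero_right]
  set α : ℝ := (2 * inner ℝ (x - G) a / s ^ 2 + 1) / 3 with hα
  set β : ℝ := (2 * inner ℝ (x - G) b / s ^ 2 + 1) / 3 with hβ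
  set γ : ℝ := (2 * inner ℝ (x - G) c / s ^ 2 + 1) / 3 with hγ
  have nonneg : ∀ I : ℝ, -(s ^ 2 / 2) ≤ I → 0 ≤ (2 * I / s ^ 2 + 1) / 3 := by
    intro I hI
    have : 2 * I / s ^ 2 + 1 = (2 * I + s ^ 2) / s ^ 2 := by field_simp
    rw [this]
    apply div_nonneg
    · apply div_nonneg
      · linarith
      · exact hs2.le
    · norm_num
  have hα0 := nonneg _ hxa
  have hβ0 := nonneg _ hxb
  have hγ0 := nonneg _ hxc
  rw [← hα] at hα0
  rw [← hβ] at hβ0
  rw [← hγ] at hγ0
  have hsum1 : α + β + γ = 1 := by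
    rw [hα, hβ, hγ]
    have : (2 * inner ℝ (x - G) a / s ^ 2 + 1) / 3 + (2 * inner ℝ (x - G) b / s ^ 2 + 1) / 3
        + (2 * inner ℝ (x - G) c / s ^ 2 + 1) / 3
        = (2 * (inner ℝ (x - G) a + inner ℝ (x - G) b + inner ℝ (x - G) c) / s ^ 2 + 3) / 3 := by
      ring
    rw [this, hsumI]; norm_num
  set y : E3 := α • (G + a) + β • (G + b) + γ • (G + c) with hy
  have hymem : y ∈ convexHull ℝ {G + a, G + b, G + c} := by
    rw [convexHull_insert (by simp), ]
    rw [mem_convexJoin]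
    refine ⟨G + a, rfl, ?_⟩
    by_cases h1 : α = 1
    · have hb0 : β = 0 := by linarith
      have hc0 : γ = 0 := by linarith
      refine ⟨G + b, subset_convexHull ℝ _ (by simp), ?_⟩
      rw [hy, h1, hb0, hc0]
      simpa using left_mem_segment ℝ (G + a) (G + b)
    · have h1' : 0 < 1 - α := by
        have : α ≤ 1 := by linarith
        rcases lt_or_eq_of_le this with h | h
        · linarith
        · exact absurd h h1
      refine ⟨(β / (1 - α)) • (G + b) + (γ / (1 - α)) • (G + c), ?_, ?_⟩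
      · rw [convexHull_pair]
        refine ⟨β / (1 - α), γ / (1 - α), by positivity, by positivity, ?_, rfl⟩
        rw [← add_div, div_eq_one_iff_eq h1'.ne']
        linarith
      · refine ⟨α, 1 - α, hα0, h1'.le, by ring, ?_⟩
        have e1 : (1 - α) • ((β / (1 - α)) • (G + b) + (γ / (1 - α)) • (G + c))
            = β • (G + b) + γ • (G + c) := by
          rw [smul_add, smul_smul, smul_smul, mul_div_cancel₀ _ h1'.ne',
            mul_div_cancel₀ _ h1'.ne']
        rw [e1, hy]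
        abel
  refine ⟨y, hymem, (x - y) 2, ?_⟩
  have hyG : y - G = α • a + β • b + γ • c := by
    have : G = (α + β + γ) • G := by rw [hsum1, one_smul]
    rw [hy]
    nth_rewrite 4 [this]
    module
  have ortho : ∀ (I : ℝ) (d : E3), inner ℝ (x - G) d = I → inner ℝ (y - G) d = I →
      inner ℝ (x - y) d = 0 := by
    intro I d h1 h2
    have : x - y = (x - G) - (y - G) := by abel
    rw [this, inner_sub_left, h1, h2, sub_self]
  have oa : inner ℝ (x - y) a = 0 := by
    apply ortho (inner ℝ (x - G) a) a rfl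
    rw [hyG, inner_add_left, inner_add_left, real_inner_smul_left, real_inner_smul_left,
      real_inner_smul_left, real_inner_self_eq_norm_sq, na, real_inner_comm a b, hab, hca]
    have hbg : γ = 1 - α - β := by linarith
    rw [hbg, hα]
    field_simp
    ring
  have ob : inner ℝ (x - y) b = 0 := by
    apply ortho (inner ℝ (x - G) b) b rfl
    rw [hyG, inner_add_left, inner_add_left, real_inner_smul_left, real_inner_smul_left,
      real_inner_smul_left, real_inner_self_eq_norm_sq, nb, real_inner_comm b c, hab, hbc]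
    have hbg : γ = 1 - α - β := by linarith
    rw [hbg, hβ]
    field_simp
    ring
  rw [PiLp.inner_apply, Fin.sum_univ_three] at oa ob hab
  simp only [RCLike.inner_apply, conj_trivial, ha2, hb2, zero_mul, mul_zero, add_zero] at oa ob hab
  have na2 := EuclideanSpace.real_norm_sq_eq a
  have nb2 := EuclideanSpace.real_norm_sq_eq b
  rw [na, Fin.sum_univ_three, ha2] at na2
  rw [nb, Fin.sum_univ_three, hb2] at nb2
  have hdet : (a 0 * b 1 - a 1 * b 0) ^ 2 = 3 / 4 * (s ^ 2) ^ 2 := by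
    have : (a 0 * b 1 - a 1 * b 0) ^ 2 = (a 0 ^ 2 + a 1 ^ 2) * (b 0 ^ 2 + b 1 ^ 2)
      - (b 0 * a 0 + b 1 * a 1) ^ 2 := by ring
    rw [this, hab]
    have e1 : a 0 ^ 2 + a 1 ^ 2 = s ^ 2 := by rw [na2]; ring
    have e2 : b 0 ^ 2 + b 1 ^ 2 = s ^ 2 := by rw [nb2]; ring
    rw [e1, e2]; ring
  have hdet0 : a 0 * b 1 - a 1 * b 0 ≠ 0 := by
    intro h
    rw [h] at hdet
    have : 0 < 3 / 4 * (s ^ 2) ^ 2 := by positivity
    rw [← hdet] at this
    norm_num at this
  have w0 : (x - y) 0 = 0 := by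
    have : (x - y) 0 * (a 0 * b 1 - a 1 * b 0) = 0 := by linear_combination b 1 * oa - a 1 * ob
    exact (mul_eq_zero.mp this).resolve_right hdet0
  have w1 : (x - y) 1 = 0 := by
    have : (x - y) 1 * (a 0 * b 1 - a 1 * b 0) = 0 := by linear_combination a 0 * ob - b 0 * oa
    exact (mul_eq_zero.mp this).resolve_right hdet0
  have hfin : x - y = ((x - y) 2) • ez := by
    ext i
    fin_cases i
    · simp [ez]; simpa using w0
    · simp [ez]; simpa using w1
    · simp [ez]
  have : x = y + (x - y) := by abel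
  rw [← hfin]; exact this

/-- The backward direction: the inscribed ball is a rotor. -/
theorem ball_is_rotor (G a b c : E3) (s : ℝ) (hs : 0 < s) (hsum : a + b + c = 0)
    (na : ‖a‖ = s) (nb : ‖b‖ = s) (nc : ‖c‖ = s)
    (hab : inner ℝ a b = -s ^ 2 / 2) (hbc : inner ℝ b c = -s ^ 2 / 2)
    (hca : inner ℝ c a = -s ^ 2 / 2) (ha2 : a 2 = 0) (hb2 : b 2 = 0) (hc2 : c 2 = 0)
    (z : E3) : IsRotor (G + a) (G + b) (G + c) (Metric.closedBall z (s / 2)) := by
  intro ρ _
  have hface : ∀ p q r : E3, p + q + r = 0 → ‖p‖ = s →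
      (moved ρ (G - ρ z) (Metric.closedBall z (s / 2)) ∩ face (G + q) (G + r)).Nonempty := by
    intro p q r hp hn
    refine ⟨ρ (z - (1 / 2 : ℝ) • ρ.symm p) + (G - ρ z),
      ⟨z - (1 / 2 : ℝ) • ρ.symm p, ?_, rfl⟩, ?_⟩
    · rw [Metric.mem_closedBall, dist_eq_norm]
      have : z - (1 / 2 : ℝ) • ρ.symm p - z = -((1 / 2 : ℝ) • ρ.symm p) := by abel
      rw [this, norm_neg, norm_smul, LinearIsometryEquiv.norm_map, hn]
      norm_num
      linarith
    · refine ⟨(1 / 2 : ℝ) • (G + q) + (1 / 2 : ℝ) • (G + r), ⟨1 / 2, 1 / 2, by norm_num,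
        by norm_num, by norm_num, rfl⟩, 0, ?_⟩
      rw [map_sub, map_smul, LinearIsometryEquiv.apply_symm_apply, zero_smul, add_zero]
      have : p = -(q + r) := by
        have : p = (p + q + r) - (q + r) := by abel
        rw [this, hp, zero_sub]
      rw [this]; module
  refine ⟨G - ρ z, ?_, hface a b c hsum na, ?_, ?_⟩
  · rintro _ ⟨x, hx, rfl⟩
    rw [Metric.mem_closedBall, dist_eq_norm] at hx
    have hn : ‖ρ x + (G - ρ z) - G‖ ≤ s / 2 := by
      have : ρ x + (G - ρ z) - G = ρ (x - z) := by rw [map_sub]; abel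
      rw [this, LinearIsometryEquiv.norm_map]; exact hx
    have ineq : ∀ d : E3, ‖d‖ = s → -(s ^ 2 / 2) ≤ inner ℝ (ρ x + (G - ρ z) - G) d := by
      intro d hd
      have h1 := abs_real_inner_le_norm (ρ x + (G - ρ z) - G) d
      rw [hd] at h1
      have h2 := (abs_le.mp h1).1
      nlinarith
    exact mem_prism G a b c s hs hsum na nb nc hab hbc hca ha2 hb2 hc2 _ (ineq a na) (ineq b nb)
      (ineq c nc)
  · exact hface b c a (by rw [← hsum]; abel) nb
  · exact hface c a b (by rw [← hsum]; abel) nc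

/-- **Rotors in a regular triangular prism.**  Let `A B C` be the vertices of an equilateral
triangle in the plane `z = 0`.  A convex body `K` is a rotor in the infinite regular triangular
prism over the triangle if and only if it is a Euclidean ball whose radius is the inradius of the
triangle. -/
theorem result (A B C : E3) (hT : IsTriangle A B C) (K : Set E3) (hK : IsConvexBody K) :
    IsRotor A B C K ↔ ∃ z : E3, K = Metric.closedBall z (dist A B / (2 * √3)) := by
  obtain ⟨hA, hB, hC, hne, hAB, hBC⟩ := hT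
  obtain ⟨hK, hconv, hint⟩ := hK
  obtain ⟨G, a, b, c, s, hs, eA, eB, eC, hsum, na, nb, nc, hab, hbc, hca, ha2, hb2, hc2, _, hd⟩ :=
    tri_data A B C hA hB hC hne hAB hBC
  have hr : dist A B / (2 * √3) = s / 2 := by
    have h3 : (0 : ℝ) < √3 := Real.sqrt_pos.mpr (by norm_num)
    rw [hd]
    field_simp
  rw [hr]
  constructor
  · intro h
    rw [eA, eB, eC] at h
    exact rotor_is_ball G a b c s hs hsum na nb nc hab hbc hca ha2 hb2 hc2 K hK hconv
      (hint.mono interior_subset) h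
  · rintro ⟨z, hz⟩
    rw [hz, eA, eB, eC]
    exact ball_is_rotor G a b c s hs hsum na nb nc hab hbc hca ha2 hb2 hc2 z

end Pool.Agent.Results.MP_c2e62a_gt.RotorIffBall
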